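import Mathlib
import Pool.Agent.L5helper9.NkDefs

/-!
# Small representatives modulo `(X - r, P) ^ 2` over the integers of a number field

`SmK t d M A`: the polynomial `A` over `𝓞 K` has degree at most `d` and its coefficients satisfy
`house a_i * t ^ (2 i) ≤ M`. Let `ψ : 𝓞 K → ZMod (p ^ 2)` be a ring homomorphism. If every residue
modulo `p` is the value at `r` modulo `p` of a polynomial `A` with `SmK t m (J t ^ n) A`, then
every pair (value modulo `p ^ 2`, derivative modulo `p`) is that of a polynomial `h` with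
`SmK t (2 m) (κ t ^ (2 n)) h`.
-/

set_option autoImplicit false
set_option linter.unusedSectionVars false

namespace Pool.Agent.L5helper79.NfLow

open Polynomial NumberField Pool.Agent.L5helper9.Nk

variable {K : Type} [Field K] [NumberField K]

section basic

variable {t d e : ℕ} {M N : ℝ} {A B : (𝓞 K)[X]}

lemma house_zero' : house (((0 : 𝓞 K) : K)) = 0 := by
  have := house_intCast (K := K) 0
  simpa using this

lemma house_one' : house (((1 : 𝓞 K) : K)) = 1 := by
  have := house_intCast (K := K) 1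
  simpa using this

lemma house_neg' (x : K) : house (-x) = house x := by
  simp [house]

lemma smK_mono {d' : ℕ} {M' : ℝ} (h : SmK t d M A) (hd : d ≤ d') (hM : M ≤ M') : SmK t d' M' A :=
  ⟨h.1.trans hd, fun i => (h.2 i).trans hM⟩

lemma smK_nonneg (h : SmK t d M A) : 0 ≤ M :=
  le_trans (mul_nonneg (house_nonneg _) (by positivity)) (h.2 0)

lemma smK_add (h1 : SmK t d M A) (h2 : SmK t d N B) : SmK t d (M + N) (A + B) := by
  refine ⟨(natDegree_add_le _ _).trans (max_le h1.1 h2.1), fun i => ?_⟩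
  have h3 := h1.2 i
  have h4 := h2.2 i
  have h5 : house (((A + B).coeff i : 𝓞 K) : K) ≤
      house ((A.coeff i : 𝓞 K) : K) + house ((B.coeff i : 𝓞 K) : K) := by
    rw [coeff_add]
    change house (algebraMap (𝓞 K) K (A.coeff i + B.coeff i)) ≤ _
    rw [map_add]
    exact house_add_le _ _
  have h6 : (0 : ℝ) ≤ (t : ℝ) ^ (2 * i) := by positivity
  nlinarith [mul_le_mul_of_nonneg_right h5 h6]

lemma smK_neg (h1 : SmK t d M A) : SmK t d M (-A) := by
  refine ⟨by rw [natDegree_neg]; exact h1.1, fun i => ?_⟩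
  rw [coeff_neg]
  change house (algebraMap (𝓞 K) K (-A.coeff i)) * _ ≤ _
  rw [map_neg, house_neg']
  exact h1.2 i

lemma smK_sub (h1 : SmK t d M A) (h2 : SmK t d N B) : SmK t d (M + N) (A - B) := by
  rw [sub_eq_add_neg]
  exact smK_add h1 (smK_neg h2)

lemma smK_one (h : 1 ≤ M) : SmK t d M (1 : (𝓞 K)[X]) := by
  refine ⟨by simp, fun i => ?_⟩
  rw [coeff_one]
  rcases Nat.eq_zero_or_pos i with rfl | hi
  · rw [if_pos rfl, house_one']
    simpa using h
  · rw [if_neg (by omega), house_zero', zero_mul]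
    linarith

lemma smK_X (hd : 1 ≤ d) (h : (t : ℝ) ^ 2 ≤ M) : SmK t d M (X : (𝓞 K)[X]) := by
  refine ⟨natDegree_X_le.trans hd, fun i => ?_⟩
  have h0 : (0 : ℝ) ≤ M := le_trans (by positivity) h
  rw [coeff_X]
  split_ifs with hi
  · subst hi
    rw [house_one']
    simpa using h
  · rw [house_zero', zero_mul]
    exact h0

lemma smK_mul (h1 : SmK t d M A) (h2 : SmK t e N B) :
    SmK t (d + e) ((d + 1) * M * N) (A * B) := by
  have hM := smK_nonneg h1
  have hN := smK_nonneg h2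
  refine ⟨natDegree_mul_le.trans (add_le_add h1.1 h2.1), fun k => ?_⟩
  rw [coeff_mul]
  change house (algebraMap (𝓞 K) K (∑ x ∈ Finset.HasAntidiagonal.antidiagonal k,
    A.coeff x.1 * B.coeff x.2)) * _ ≤ _
  rw [map_sum]
  have h3 : ∀ x ∈ Finset.HasAntidiagonal.antidiagonal k,
      house (algebraMap (𝓞 K) K (A.coeff x.1 * B.coeff x.2)) * (t : ℝ) ^ (2 * k) ≤
      if x.1 ≤ d then M * N else 0 := by
    intro x hx
    rw [Finset.HasAntidiagonal.mem_antidiagonal] at hx
    split_ifs with hxd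
    · have h4 := h1.2 x.1
      have h5 := h2.2 x.2
      have h6 : house (algebraMap (𝓞 K) K (A.coeff x.1 * B.coeff x.2)) ≤
          house ((A.coeff x.1 : 𝓞 K) : K) * house ((B.coeff x.2 : 𝓞 K) : K) := by
        rw [map_mul]
        exact house_mul_le _ _
      calc house (algebraMap (𝓞 K) K (A.coeff x.1 * B.coeff x.2)) * (t : ℝ) ^ (2 * k)
          ≤ house ((A.coeff x.1 : 𝓞 K) : K) * house ((B.coeff x.2 : 𝓞 K) : K) *
            (t : ℝ) ^ (2 * k) := mul_le_mul_of_nonneg_right h6 (by positivity)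
        _ = (house ((A.coeff x.1 : 𝓞 K) : K) * (t : ℝ) ^ (2 * x.1)) *
            (house ((B.coeff x.2 : 𝓞 K) : K) * (t : ℝ) ^ (2 * x.2)) := by
            rw [← hx]
            ring
        _ ≤ M * N := mul_le_mul h4 h5 (mul_nonneg (house_nonneg _) (by positivity)) hM
    · rw [coeff_eq_zero_of_natDegree_lt (lt_of_le_of_lt h1.1 (by omega)), zero_mul]
      rw [house_zero', zero_mul]
  calc house (∑ x ∈ Finset.HasAntidiagonal.antidiagonal k,
        algebraMap (𝓞 K) K (A.coeff x.1 * B.coeff x.2)) * (t : ℝ) ^ (2 * k)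
      ≤ (∑ x ∈ Finset.HasAntidiagonal.antidiagonal k,
        house (algebraMap (𝓞 K) K (A.coeff x.1 * B.coeff x.2))) * (t : ℝ) ^ (2 * k) :=
        mul_le_mul_of_nonneg_right (house_sum_le_sum_house _ _) (by positivity)
    _ = ∑ x ∈ Finset.HasAntidiagonal.antidiagonal k,
        house (algebraMap (𝓞 K) K (A.coeff x.1 * B.coeff x.2)) * (t : ℝ) ^ (2 * k) := by
        rw [Finset.sum_mul]
    _ ≤ ∑ x ∈ Finset.HasAntidiagonal.antidiagonal k, if x.1 ≤ d then M * N else 0 :=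
        Finset.sum_le_sum h3
    _ = ((Finset.HasAntidiagonal.antidiagonal k).filter fun x => x.1 ≤ d).card * (M * N) := by
        rw [← Finset.sum_filter, Finset.sum_const, nsmul_eq_mul]
    _ ≤ ((d : ℝ) + 1) * (M * N) := by
        apply mul_le_mul_of_nonneg_right _ (mul_nonneg hM hN)
        have h4 : ((Finset.HasAntidiagonal.antidiagonal k).filter fun x => x.1 ≤ d).card ≤
            (Finset.range (d + 1)).card := by
          apply Finset.card_le_card_of_injOn (fun x => x.1)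
          · intro x hx
            simp only [Finset.coe_filter, Set.mem_ofPred_eq] at hx
            simp only [Finset.coe_range, Set.mem_Iio]
            omega
          · intro x hx y hy hxy
            simp only [Finset.coe_filter, Finset.HasAntidiagonal.mem_antidiagonal,
              Set.mem_ofPred_eq] at hx hy
            simp only at hxy
            ext
            · exact hxy
            · omega
        rw [Finset.card_range] at h4
        exact_mod_cast h4
    _ = (d + 1) * M * N := by ring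

end basic

section evaluation

variable {p : ℕ} {ψ : 𝓞 K →+* ZMod (p ^ 2)} {r : ℤ}

/-- the reduction modulo `p` -/
noncomputable abbrev rd (p : ℕ) : ZMod (p ^ 2) →+* ZMod p :=
  ZMod.castHom (dvd_pow_self p two_ne_zero) (ZMod p)

lemma ev_add (A B : (𝓞 K)[X]) : ev ψ r (A + B) = ev ψ r A + ev ψ r B := eval₂_add _ _

lemma ev_mul (A B : (𝓞 K)[X]) : ev ψ r (A * B) = ev ψ r A * ev ψ r B := eval₂_mul _ _

lemma ev_neg (A : (𝓞 K)[X]) : ev ψ r (-A) = -ev ψ r A := eval₂_neg _

lemma ev_sub (A B : (𝓞 K)[X]) : ev ψ r (A - B) = ev ψ r A - ev ψ r B := eval₂_sub _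

lemma ev_one : ev ψ r 1 = 1 := eval₂_one _ _

lemma ev_X : ev ψ r X = (r : ZMod (p ^ 2)) := eval₂_X _ _

lemma ev_natCast (k : ℕ) : ev ψ r ((k : ℕ) : (𝓞 K)[X]) = (k : ZMod (p ^ 2)) := by
  unfold ev
  rw [eval₂_natCast]

lemma ev1_eq (A : (𝓞 K)[X]) : ev1 ψ r A = rd p (ev ψ r A) := rfl

lemma ev1_add (A B : (𝓞 K)[X]) : ev1 ψ r (A + B) = ev1 ψ r A + ev1 ψ r B := by
  rw [ev1_eq, ev_add, map_add]; rfl

lemma ev1_mul (A B : (𝓞 K)[X]) : ev1 ψ r (A * B) = ev1 ψ r A * ev1 ψ r B := by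
  rw [ev1_eq, ev_mul, map_mul]; rfl

lemma ev1_neg (A : (𝓞 K)[X]) : ev1 ψ r (-A) = -ev1 ψ r A := by
  rw [ev1_eq, ev_neg, map_neg]; rfl

lemma ev1_sub (A B : (𝓞 K)[X]) : ev1 ψ r (A - B) = ev1 ψ r A - ev1 ψ r B := by
  rw [ev1_eq, ev_sub, map_sub]; rfl

lemma ev1_one : ev1 ψ r 1 = 1 := by
  rw [ev1_eq, ev_one, map_one]

lemma ev1_zero : ev1 ψ r 0 = 0 := by
  rw [ev1_eq]
  unfold ev
  rw [eval₂_zero, map_zero]

lemma ev1_X : ev1 ψ r X = (r : ZMod p) := by
  rw [ev1_eq, ev_X, map_intCast]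

lemma ev1_natCast (k : ℕ) : ev1 ψ r ((k : ℕ) : (𝓞 K)[X]) = (k : ZMod p) := by
  rw [ev1_eq, ev_natCast, map_natCast]

/-- the elements of `ZMod (p ^ 2)` which are zero modulo `p` are divisible by `p` -/
lemma exists_mul {z : ZMod (p ^ 2)} (h : rd p z = 0) :
    ∃ v : ℤ, z = (p : ZMod (p ^ 2)) * (v : ZMod (p ^ 2)) := by
  obtain ⟨y, rfl⟩ := ZMod.intCast_surjective z
  rw [map_intCast, ZMod.intCast_zmod_eq_zero_iff_dvd] at h
  obtain ⟨v, rfl⟩ := h
  exact ⟨v, by push_cast; rfl⟩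

lemma mul_eq_iff (hp : p.Prime) (v w : ℤ) :
    (p : ZMod (p ^ 2)) * (v : ZMod (p ^ 2)) = (p : ZMod (p ^ 2)) * (w : ZMod (p ^ 2)) ↔
      (v : ZMod p) = (w : ZMod p) := by
  have hpz : ((p : ℤ)) ≠ 0 := by exact_mod_cast hp.ne_zero
  have h1 : (p : ZMod (p ^ 2)) * (v : ZMod (p ^ 2)) = (((p : ℤ) * v : ℤ) : ZMod (p ^ 2)) := by
    push_cast; rfl
  have h2 : (p : ZMod (p ^ 2)) * (w : ZMod (p ^ 2)) = (((p : ℤ) * w : ℤ) : ZMod (p ^ 2)) := by
    push_cast; rfl
  rw [h1, h2, ZMod.intCast_eq_intCast_iff_dvd_sub, ZMod.intCast_eq_intCast_iff_dvd_sub,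
    ← mul_sub]
  push_cast
  rw [pow_two, mul_dvd_mul_iff_left hpz]

end evaluation

section telescoping

variable {p : ℕ} {t m n : ℕ} {r : ℤ} {J : ℝ} {ψ : 𝓞 K →+* ZMod (p ^ 2)}

/-- the linear functional `a V(r) / p + b V'(r)` vanishes modulo `p` at the polynomial `V`, whose
value at `r` is divisible by `p` -/
def VanK (ψ : 𝓞 K →+* ZMod (p ^ 2)) (r : ℤ) (a b : ZMod p) (V : (𝓞 K)[X]) : Prop :=
  ∃ v : ℤ, ev ψ r V = (p : ZMod (p ^ 2)) * (v : ZMod (p ^ 2)) ∧
    a * (v : ZMod p) + b * ev1 ψ r V.derivative = 0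

lemma vanK_add {a b : ZMod p} {V W : (𝓞 K)[X]} (h1 : VanK ψ r a b V) (h2 : VanK ψ r a b W) :
    VanK ψ r a b (V + W) := by
  obtain ⟨v, hv, hv2⟩ := h1
  obtain ⟨w, hw, hw2⟩ := h2
  refine ⟨v + w, by rw [ev_add, hv, hw]; push_cast; ring, ?_⟩
  rw [derivative_add, ev1_add]
  push_cast
  linear_combination hv2 + hw2

lemma vanK_neg {a b : ZMod p} {V : (𝓞 K)[X]} (h1 : VanK ψ r a b V) : VanK ψ r a b (-V) := by
  obtain ⟨v, hv, hv2⟩ := h1
  refine ⟨-v, by rw [ev_neg, hv]; push_cast; ring, ?_⟩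
  rw [derivative_neg, ev1_neg]
  push_cast
  linear_combination -hv2

/-- If the functional vanishes at all small polynomials, it is zero. -/
lemma telescopeK (hp : p.Prime) (ht : 1 ≤ t) (hm : 1 ≤ m) (hn : 2 ≤ n) (hJ : 1 ≤ J)
    (hrep : ∀ ρ : ZMod p, ∃ A : (𝓞 K)[X], SmK t m (J * t ^ n) A ∧ ev1 ψ r A = ρ) (a b : ZMod p)
    (hsmall : ∀ V : (𝓞 K)[X], SmK t m ((2 * J + 1) * t ^ n) V → ev1 ψ r V = 0 → VanK ψ r a b V) :
    a = 0 ∧ b = 0 := by
  have : Fact p.Prime := ⟨hp⟩
  choose R hR1 hR2 using hrep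
  have htn : (1 : ℝ) ≤ (t : ℝ) ^ n := one_le_pow₀ (by exact_mod_cast ht)
  have ht2 : ((t : ℝ)) ^ 2 ≤ (t : ℝ) ^ n := pow_le_pow_right₀ (by exact_mod_cast ht) hn
  have hR0 : VanK ψ r a b (R 0) := by
    apply hsmall
    · exact smK_mono (hR1 0) le_rfl (by nlinarith)
    · exact hR2 0
  -- constants
  have hconst : ∀ k : ℕ, VanK ψ r a b (((k : ℕ) : (𝓞 K)[X]) - R (k : ZMod p)) := by
    intro k
    induction k with
    | zero =>
      simpa using vanK_neg hR0
    | succ k ih =>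
      have h1 : VanK ψ r a b (1 + R (k : ZMod p) - R ((k + 1 : ℕ) : ZMod p)) := by
        apply hsmall
        · have h2 : SmK t m ((t : ℝ) ^ n) (1 : (𝓞 K)[X]) := smK_one htn
          exact smK_mono (smK_sub (smK_add h2 (hR1 _)) (hR1 _)) le_rfl (by nlinarith)
        · rw [ev1_sub, ev1_add, ev1_one, hR2, hR2]
          push_cast
          ring
      have h2 := vanK_add ih h1
      convert h2 using 1
      push_cast
      ring
  -- linear polynomials
  have hX0 : VanK ψ r a b (X - R (r : ZMod p)) := by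
    apply hsmall
    · exact smK_mono (smK_sub (smK_X hm ht2) (hR1 _)) le_rfl (by nlinarith)
    · rw [ev1_sub, ev1_X, hR2, sub_self]
  have hlin : ∀ k : ℕ, VanK ψ r a b (X - ((k : ℕ) : (𝓞 K)[X]) - R ((r : ZMod p) - k)) := by
    intro k
    induction k with
    | zero => simpa using hX0
    | succ k ih =>
      have h1 : VanK ψ r a b (-1 + R ((r : ZMod p) - k) - R ((r : ZMod p) - ((k + 1 : ℕ)))) := by
        apply hsmall
        · have h2 : SmK t m ((t : ℝ) ^ n) (-1 : (𝓞 K)[X]) := smK_neg (smK_one htn)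
          exact smK_mono (smK_sub (smK_add h2 (hR1 _)) (hR1 _)) le_rfl (by nlinarith)
        · rw [ev1_sub, ev1_add, ev1_neg, ev1_one, hR2, hR2]
          push_cast
          ring
      have h2 := vanK_add ih h1
      convert h2 using 1
      push_cast
      ring
  constructor
  · -- the constant `p`
    have h1 := hconst p
    rw [ZMod.natCast_self] at h1
    have h4 := vanK_add h1 hR0
    rw [sub_add_cancel] at h4
    obtain ⟨v, hv, hv2⟩ := h4
    rw [ev_natCast] at hv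
    have hv1 : ((1 : ℤ) : ZMod p) = (v : ZMod p) := by
      rw [← mul_eq_iff hp]
      simpa using hv
    rw [derivative_natCast, ev1_zero, ← hv1] at hv2
    simpa using hv2
  · -- a linear polynomial with the zero `r`
    obtain ⟨k, hk⟩ := ZMod.natCast_zmod_surjective (n := p ^ 2) (r : ZMod (p ^ 2))
    have hk1 : (r : ZMod p) - (k : ZMod p) = 0 := by
      have := congrArg (rd p) hk
      rw [map_natCast, map_intCast] at this
      rw [this, sub_self]
    have h1 := hlin k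
    rw [hk1] at h1
    have h4 := vanK_add h1 hR0
    rw [sub_add_cancel] at h4
    obtain ⟨v, hv, hv2⟩ := h4
    rw [ev_sub, ev_X, ev_natCast, hk, sub_self] at hv
    have hv1 : ((0 : ℤ) : ZMod p) = (v : ZMod p) := by
      rw [← mul_eq_iff hp]
      simpa using hv
    rw [derivative_sub, derivative_X, derivative_natCast, sub_zero, ev1_one, ← hv1] at hv2
    simpa using hv2

/-- **Small representatives of all classes modulo `(X - r, P) ^ 2`.** -/
theorem reps2K {K : Type} [Field K] [NumberField K] {t m n p : ℕ} (hp : p.Prime) (ht : 1 ≤ t)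
    (hm : 1 ≤ m) (hn : 2 ≤ n) {J : ℝ} (hJ : 1 ≤ J) (ψ : 𝓞 K →+* ZMod (p ^ 2)) (r : ℤ)
    (hrep : ∀ ρ : ZMod p, ∃ A : (𝓞 K)[X], SmK t m (J * t ^ n) A ∧ ev1 ψ r A = ρ)
    (ρ0 : ZMod (p ^ 2)) (ρ1 : ZMod p) :
    ∃ h : (𝓞 K)[X], SmK t (m + m) ((J + 2 * (m + 1) * (2 * J + 1) * J) * t ^ (2 * n)) h ∧
      ev ψ r h = ρ0 ∧ ev1 ψ r h.derivative = ρ1 := by
  have : Fact p.Prime := ⟨hp⟩
  have htn : (1 : ℝ) ≤ (t : ℝ) ^ n := one_le_pow₀ (by exact_mod_cast ht)
  -- two small polynomials with independent images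
  have hV : ∃ V W : (𝓞 K)[X], SmK t m ((2 * J + 1) * t ^ n) V ∧ SmK t m ((2 * J + 1) * t ^ n) W ∧
      ∃ v w : ℤ, ev ψ r V = (p : ZMod (p ^ 2)) * (v : ZMod (p ^ 2)) ∧
        ev ψ r W = (p : ZMod (p ^ 2)) * (w : ZMod (p ^ 2)) ∧
        (v : ZMod p) * ev1 ψ r W.derivative - (w : ZMod p) * ev1 ψ r V.derivative ≠ 0 := by
    by_contra hcon
    push Not at hcon
    -- every small polynomial has image zero
    have h1 : ∀ V : (𝓞 K)[X], SmK t m ((2 * J + 1) * t ^ n) V → ev1 ψ r V = 0 →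
        ∃ v : ℤ, ev ψ r V = (p : ZMod (p ^ 2)) * (v : ZMod (p ^ 2)) ∧ (v : ZMod p) = 0 ∧
          ev1 ψ r V.derivative = 0 := by
      intro V hV hV0
      obtain ⟨v, hv⟩ := exists_mul (p := p) (z := ev ψ r V) hV0
      have h2 := telescopeK (p := p) (r := r) (ψ := ψ) hp ht hm hn hJ hrep
        (-(ev1 ψ r V.derivative)) (v : ZMod p) (by
          intro W hW hW0
          obtain ⟨w, hw⟩ := exists_mul (p := p) (z := ev ψ r W) hW0
          refine ⟨w, hw, ?_⟩
          have := hcon V W hV hW v w hv hw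
          linear_combination this)
      exact ⟨v, hv, h2.2, by simpa using h2.1⟩
    have h2 := telescopeK (p := p) (r := r) (ψ := ψ) hp ht hm hn hJ hrep 1 0 (by
      intro V hV hd
      obtain ⟨v, hv, hv0, -⟩ := h1 V hV hd
      exact ⟨v, hv, by rw [hv0]; ring⟩)
    exact one_ne_zero h2.1
  obtain ⟨V, W, hVs, hWs, v, w, hv, hw, hdet⟩ := hV
  choose R hR1 hR2 using hrep
  have hρ : rd p (ρ0 - ev ψ r (R (rd p ρ0))) = 0 := by
    rw [map_sub, ← ev1_eq, hR2, sub_self]
  obtain ⟨e, he⟩ := exists_mul (p := p) hρ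
  -- Cramer
  set D : ZMod p := (v : ZMod p) * ev1 ψ r W.derivative - (w : ZMod p) * ev1 ψ r V.derivative
    with hD
  set f' : ZMod p := ρ1 - ev1 ψ r (R (rd p ρ0)).derivative with hf'
  set x : ZMod p := ((e : ZMod p) * ev1 ψ r W.derivative - (w : ZMod p) * f') / D with hx
  set y : ZMod p := ((v : ZMod p) * f' - (e : ZMod p) * ev1 ψ r V.derivative) / D with hy
  have hvan : ev1 ψ r V = 0 := by
    rw [ev1_eq, hv, map_mul, map_natCast, ZMod.natCast_self, zero_mul]
  have hwan : ev1 ψ r W = 0 := by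
    rw [ev1_eq, hw, map_mul, map_natCast, ZMod.natCast_self, zero_mul]
  obtain ⟨xi, hxi⟩ := ZMod.intCast_surjective (ev ψ r (R x))
  obtain ⟨yi, hyi⟩ := ZMod.intCast_surjective (ev ψ r (R y))
  have hxe : (xi : ZMod p) = x := by
    have := congrArg (rd p) hxi
    rw [map_intCast, ← ev1_eq, hR2] at this
    exact this
  have hye : (yi : ZMod p) = y := by
    have := congrArg (rd p) hyi
    rw [map_intCast, ← ev1_eq, hR2] at this
    exact this
  refine ⟨R (rd p ρ0) + V * R x + W * R y, ?_, ?_, ?_⟩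
  · have hJ0 : (0 : ℝ) ≤ J := by linarith
    have h1 : SmK t (m + m) (J * t ^ n) (R (rd p ρ0)) := smK_mono (hR1 _) (by omega) le_rfl
    have h2 := smK_mul hVs (hR1 x)
    have h3 := smK_mul hWs (hR1 y)
    refine smK_mono (smK_add (smK_add h1 h2) h3) le_rfl ?_
    have h4 : (t : ℝ) ^ (2 * n) = (t : ℝ) ^ n * (t : ℝ) ^ n := by rw [two_mul, pow_add]
    rw [h4]
    have h5 : J * (t : ℝ) ^ n ≤ J * ((t : ℝ) ^ n * (t : ℝ) ^ n) := by
      apply mul_le_mul_of_nonneg_left _ hJ0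
      nlinarith
    nlinarith
  · have h1 : ev ψ r (R (rd p ρ0) + V * R x + W * R y) - ρ0 =
        (p : ZMod (p ^ 2)) * ((-e + v * xi + w * yi : ℤ) : ZMod (p ^ 2)) := by
      rw [ev_add, ev_add, ev_mul, ev_mul, hv, hw, ← hxi, ← hyi]
      push_cast
      linear_combination -he
    have h2 : (p : ZMod (p ^ 2)) * ((-e + v * xi + w * yi : ℤ) : ZMod (p ^ 2)) =
        (p : ZMod (p ^ 2)) * ((0 : ℤ) : ZMod (p ^ 2)) := by
      rw [mul_eq_iff hp]
      push_cast
      rw [hxe, hye, hx, hy]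
      field_simp
      rw [hD]
      ring
    rw [h2] at h1
    simpa [sub_eq_zero] using h1
  · rw [derivative_add, derivative_add, derivative_mul, derivative_mul, ev1_add, ev1_add,
      ev1_add, ev1_add, ev1_mul, ev1_mul, ev1_mul, ev1_mul, hvan, hwan, hR2, hR2]
    have h3 : ρ1 = f' + ev1 ψ r (R (rd p ρ0)).derivative := by
      rw [hf']; ring
    rw [h3, hx, hy]
    field_simp
    rw [hD]
    ring

end telescoping

end Pool.Agent.L5helper79.NfLow
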